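import Pool.Agent.Helper73.DC.St7

set_option autoImplicit false

namespace Pool.Agent.Helper57.DC

open Pool.Agent.Helper73.DC
open Finset
open scoped Classical

section

variable {α : Type} (M : DPDA α)

theorem epR_unique {b : Prop} {q : M.Q} {β : List M.Γ} {r r' : Option M.Q} (h : EpR M b q β r)
    (h' : EpR M b q β r') : r = r' := by
  induction h generalizing r' with
  | acc q β hb ha =>
    cases h' with
    | acc _ _ _ _ => rfl
    | nil _ hn => exact absurd ⟨hb, ha⟩ hn
    | mv _ _ _ _ _ hn _ _ => exact absurd ⟨hb, ha⟩ hn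
    | sq _ _ _ _ _ _ hn _ _ => exact absurd ⟨hb, ha⟩ hn
    | sqa _ _ _ _ hn _ => exact absurd ⟨hb, ha⟩ hn
  | nil q hn =>
    cases h' with
    | acc _ _ hb ha => exact absurd ⟨hb, ha⟩ hn
    | nil _ _ => rfl
  | mv q q' Z γ r hn he _ ih =>
    cases h' with
    | acc _ _ hb ha => exact absurd ⟨hb, ha⟩ hn
    | mv _ q'' _ γ' _ _ he' h2 =>
      rw [he] at he'
      injection he' with h3
      injection h3 with h4 h5
      subst h4 h5
      exact ih h2
  | sq q q' Z Y β r hn _ _ ih1 ih2 =>
    cases h' with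
    | acc _ _ hb ha => exact absurd ⟨hb, ha⟩ hn
    | sq _ q'' _ _ _ _ _ h1 h2 =>
      have h3 := ih1 h1
      injection h3 with h4
      subst h4
      exact ih2 h2
    | sqa _ _ _ _ _ h1 =>
      have h3 := ih1 h1
      cases h3
  | sqa q Z Y β hn _ ih =>
    cases h' with
    | acc _ _ hb ha => rfl
    | sq _ q'' _ _ _ _ _ h1 h2 =>
      have h3 := ih h1
      cases h3
    | sqa _ _ _ _ _ h1 => rfl

variable [Fintype α] (K N NQ : ℕ) (e : M.Q × {β : List M.Γ // β.length ≤ K} ≃ Fin N) (e' : M.Q ≃ Fin NQ)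

private noncomputable def nm (q : M.Q) (β : List M.Γ) : ℕ :=
  if h : β.length ≤ K then (e (q, ⟨β, h⟩)).val else 0

private noncomputable def dt (t : ℕ) : Option (M.Q × List M.Γ) :=
  if h : t < N then some ((e.symm ⟨t, h⟩).1, (e.symm ⟨t, h⟩).2.1) else none

private lemma nm_lt (hN : 0 < N) (q : M.Q) (β : List M.Γ) : nm M K N e q β < N := by
  unfold nm
  split_ifs with h
  · exact Fin.is_lt _
  · exact hN

private lemma dt_nm (q : M.Q) (β : List M.Γ) (h : β.length ≤ K) :
    dt M K N e (nm M K N e q β) = some (q, β) := by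
  unfold nm dt
  rw [dif_pos h, dif_pos (Fin.is_lt _)]
  simp

private lemma dt_none (t : ℕ) (ht : ∀ q β, β.length ≤ K → nm M K N e q β ≠ t) :
    dt M K N e t = none := by
  unfold dt
  rw [dif_neg]
  intro h
  apply ht (e.symm ⟨t, h⟩).1 (e.symm ⟨t, h⟩).2.1 (e.symm ⟨t, h⟩).2.2
  unfold nm
  rw [dif_pos (e.symm ⟨t, h⟩).2.2]
  simp

private noncomputable def kd0 (q : M.Q) : List M.Γ → ℕ → ℕ
  | [], c => if c = 0 ∧ M.acc q then 0 else 1
  | [Z], c => if c = 0 ∧ M.acc q then 0 else if M.ep q Z ≠ none then 2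
      else if ∃ a, c = cd a + 1 ∧ M.tr q Z a ≠ none then 3 else 4
  | _ :: _ :: _, c => if c = 0 ∧ M.acc q then 0 else 5

private noncomputable def nx0 (q : M.Q) : List M.Γ → ℕ → ℕ
  | [], _ => nm M K N e q []
  | [Z], c => match M.ep q Z with
      | some (q', γ) => nm M K N e q' γ
      | none => if h : ∃ z : M.Q × List M.Γ, ∃ a, c = cd a + 1 ∧ M.tr q Z a = some z then
          nm M K N e h.choose.1 h.choose.2 else nm M K N e q [Z]
  | Z :: _ :: _, _ => nm M K N e q [Z]

private noncomputable def sk0 : List M.Γ → ℕ → ℕ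
  | _ :: Y :: β, j => if h : j < NQ then nm M K N e (e'.symm ⟨j, h⟩) (Y :: β)
      else nm M K N e M.q0 []
  | _, _ => nm M K N e M.q0 []

private noncomputable def tb0 (q : M.Q) (β : List M.Γ) (c : ℕ) : ℕ :=
  if EpR M (c = 0) q β none then 1
  else if h : ∃ q', EpR M (c = 0) q β (some q') then (e' h.choose).val + 2 else 0

private lemma nx0_lt (hN : 0 < N) (q : M.Q) (β : List M.Γ) (c : ℕ) :
    nx0 M K N e q β c < N := by
  match β with
  | [] => exact nm_lt M K N e hN _ _
  | [Z] =>
    simp only [nx0]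
    cases hz : M.ep q Z with
    | some z => exact nm_lt M K N e hN _ _
    | none =>
      simp only
      split_ifs
      · exact nm_lt M K N e hN _ _
      · exact nm_lt M K N e hN _ _
  | Z :: Y :: β => exact nm_lt M K N e hN _ _

private lemma sk0_lt (hN : 0 < N) (β : List M.Γ) (j : ℕ) : sk0 M K N NQ e e' β j < N := by
  unfold sk0
  split
  · split_ifs
    · exact nm_lt M K N e hN _ _
    · exact nm_lt M K N e hN _ _
  · exact nm_lt M K N e hN _ _

private lemma tb0_lt (q : M.Q) (β : List M.Γ) (c : ℕ) : tb0 M NQ e' q β c < NQ + 2 := by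
  unfold tb0
  split_ifs with h1 h2
  · omega
  · have := Fin.is_lt (e' h2.choose)
    omega
  · omega

private noncomputable def tab (hN : 0 < N) (hNQ : 0 < NQ) : Tab where
  F := N
  NQ := NQ
  tk := fun t c => match dt M K N e t with
    | none => 6
    | some z => kd0 M z.1 z.2 c
  tn := fun t c => match dt M K N e t with
    | none => 0
    | some z => nx0 M K N e z.1 z.2 c
  ts := fun t j => match dt M K N e t with
    | none => 0
    | some z => sk0 M K N NQ e e' z.2 j
  tb := fun t c => match dt M K N e t with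
    | none => 0
    | some z => tb0 M NQ e' z.1 z.2 c
  tq := fun t => match dt M K N e t with
    | none => 0
    | some z => (e' z.1).val
  hF := hN
  hn := by
    intro t c
    split
    · exact hN
    · exact nx0_lt M K N e hN _ _ _
  hs := by
    intro t c
    split
    · exact hN
    · exact sk0_lt M K N NQ e e' hN _ _
  hb := by
    intro t c
    split
    · omega
    · exact tb0_lt M NQ e' _ _ _
  hq := by
    intro t
    split
    · exact hNQ
    · exact Fin.is_lt _

variable (hN : 0 < N) (hNQ : 0 < NQ)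

private lemma tab_tk (q : M.Q) (β : List M.Γ) (h : β.length ≤ K) (c : ℕ) :
    (tab M K N NQ e e' hN hNQ).tk (nm M K N e q β) c = kd0 M q β c := by
  simp only [tab]
  rw [dt_nm M K N e q β h]

private lemma tab_tn (q : M.Q) (β : List M.Γ) (h : β.length ≤ K) (c : ℕ) :
    (tab M K N NQ e e' hN hNQ).tn (nm M K N e q β) c = nx0 M K N e q β c := by
  simp only [tab]
  rw [dt_nm M K N e q β h]

private lemma tab_ts (q : M.Q) (β : List M.Γ) (h : β.length ≤ K) (j : ℕ) :
    (tab M K N NQ e e' hN hNQ).ts (nm M K N e q β) j = sk0 M K N NQ e e' β j := by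
  simp only [tab]
  rw [dt_nm M K N e q β h]

private lemma tab_tb (q : M.Q) (β : List M.Γ) (h : β.length ≤ K) (c : ℕ) :
    (tab M K N NQ e e' hN hNQ).tb (nm M K N e q β) c = tb0 M NQ e' q β c := by
  simp only [tab]
  rw [dt_nm M K N e q β h]

private lemma tab_tq (q : M.Q) (β : List M.Γ) (h : β.length ≤ K) :
    (tab M K N NQ e e' hN hNQ).tq (nm M K N e q β) = (e' q).val := by
  simp only [tab]
  rw [dt_nm M K N e q β h]

private lemma kd0_acc (q : M.Q) (β : List M.Γ) (h : M.acc q) : kd0 M q β 0 = 0 := by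
  match β with
  | [] => simp [kd0, h]
  | [Z] => simp [kd0, h]
  | Z :: Y :: β => simp [kd0, h]

end

theorem mD2 : StD2 := by
  intro α _ M
  haveI := M.finQ
  haveI := M.finΓ
  -- the bound of the lengths
  obtain ⟨K1, hK1⟩ : ∃ K1, ∀ (q : M.Q) (Z : M.Γ) (a : α) q' γ, M.tr q Z a = some (q', γ) →
      γ.length ≤ K1 := by
    obtain ⟨B, hB⟩ := (Set.finite_range (fun z : M.Q × M.Γ × α =>
      match M.tr z.1 z.2.1 z.2.2 with
      | some y => y.2.length
      | none => 0)).bddAbove
    refine ⟨B, fun q Z a q' γ h => ?_⟩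
    have := hB ⟨(q, Z, a), rfl⟩
    simp only [h] at this
    exact this
  obtain ⟨K2, hK2⟩ : ∃ K2, ∀ (q : M.Q) (Z : M.Γ) q' γ, M.ep q Z = some (q', γ) →
      γ.length ≤ K2 := by
    obtain ⟨B, hB⟩ := (Set.finite_range (fun z : M.Q × M.Γ =>
      match M.ep z.1 z.2 with
      | some y => y.2.length
      | none => 0)).bddAbove
    refine ⟨B, fun q Z q' γ h => ?_⟩
    have := hB ⟨(q, Z), rfl⟩
    simp only [h] at this
    exact this
  set K := max 1 (max K1 K2) with hK
  have hKK : 1 ≤ K := le_max_left _ _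
  haveI : Finite {β : List M.Γ // β.length ≤ K} := (List.finite_length_le M.Γ K).to_subtype
  obtain ⟨N, ⟨e⟩⟩ := Finite.exists_equiv_fin (M.Q × {β : List M.Γ // β.length ≤ K})
  obtain ⟨NQ, ⟨e'⟩⟩ := Finite.exists_equiv_fin M.Q
  have hN : 0 < N := lt_of_le_of_lt (Nat.zero_le _) (Fin.is_lt (e (M.q0, ⟨[], Nat.zero_le _⟩)))
  have hNQ : 0 < NQ := lt_of_le_of_lt (Nat.zero_le _) (Fin.is_lt (e' M.q0))
  have l1 : ∀ Z : M.Γ, [Z].length ≤ K := fun Z => hKK
  have l0 : ([] : List M.Γ).length ≤ K := Nat.zero_le _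
  refine ⟨tab M K N NQ e e' hN hNQ, K, nm M K N e, fun q => (e' q).val, ?_⟩
  refine ⟨hKK, ?_, ?_, ?_, ?_, ?_, ?_, ?_, ?_, ?_, ?_, ?_, ?_, ?_, ?_, ?_, ?_⟩
  · intro q Z a q' γ h
    exact (hK1 q Z a q' γ h).trans ((le_max_left _ _).trans (le_max_right _ _))
  · intro q Z q' γ h
    exact (hK2 q Z q' γ h).trans ((le_max_right _ _).trans (le_max_right _ _))
  · intro q β _
    exact nm_lt M K N e hN q β
  · intro q β q' β' h h' heq
    have h1 := dt_nm M K N e q β h
    have h2 := dt_nm M K N e q' β' h'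
    rw [heq, h2] at h1
    injection h1 with h3
    injection h3 with h4 h5
    exact ⟨h4.symm, h5.symm⟩
  · intro q
    exact Fin.is_lt _
  · intro q q' h
    exact e'.injective (Fin.ext h)
  · -- kinv
    intro t c ht
    have h := dt_none M K N e t ht
    constructor
    · simp only [tab, h]
    · simp only [tab, h]
  · -- kacc
    intro q β h ha
    rw [tab_tk M K N NQ e e' hN hNQ q β h]
    exact kd0_acc M q β ha
  · -- knil
    intro q c hc
    rw [tab_tk M K N NQ e e' hN hNQ q [] l0, tab_tq M K N NQ e e' hN hNQ q [] l0]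
    refine ⟨?_, rfl⟩
    simp only [kd0]
    rw [if_neg hc]
  · -- kep
    intro q Z q' γ c hc he
    rw [tab_tk M K N NQ e e' hN hNQ q [Z] (l1 Z), tab_tn M K N NQ e e' hN hNQ q [Z] (l1 Z)]
    constructor
    · simp only [kd0]
      rw [if_neg hc, if_pos (by rw [he]; simp)]
    · simp only [nx0]
      rw [he]
  · -- ktr
    intro q Z q' γ a ht
    have he : M.ep q Z = none := by
      by_contra hne
      have := M.det q Z hne a
      rw [this] at ht
      cases ht
    have hcd : ∀ a b : α, cd a + 1 = cd b + 1 → a = b := by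
      intro a b hab
      have : cd a = cd b := by omega
      unfold cd at this
      exact (Fintype.equivFin α).injective (Fin.ext this)
    rw [tab_tk M K N NQ e e' hN hNQ q [Z] (l1 Z), tab_tn M K N NQ e e' hN hNQ q [Z] (l1 Z)]
    constructor
    · simp only [kd0]
      rw [if_neg (by omega), if_neg (by rw [he]; simp), if_pos ⟨a, rfl, by rw [ht]; simp⟩]
    · simp only [nx0]
      rw [he]
      have hex : ∃ z : M.Q × List M.Γ, ∃ b, cd a + 1 = cd b + 1 ∧ M.tr q Z b = some z :=
        ⟨(q', γ), a, rfl, ht⟩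
      show (if h : ∃ z : M.Q × List M.Γ, ∃ b, cd a + 1 = cd b + 1 ∧ M.tr q Z b = some z then
          nm M K N e h.choose.1 h.choose.2 else nm M K N e q [Z]) = nm M K N e q' γ
      rw [dif_pos hex]
      obtain ⟨b, hb1, hb2⟩ := hex.choose_spec
      have hab := hcd a b hb1
      rw [← hab, ht] at hb2
      injection hb2 with h3
      rw [← h3]
  · -- kst
    intro q Z c hc he hst
    rw [tab_tk M K N NQ e e' hN hNQ q [Z] (l1 Z)]
    simp only [kd0]
    rw [if_neg hc, if_neg (by rw [he]; simp), if_neg]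
    rintro ⟨a, ha, hne⟩
    exact hne (hst a ha)
  · -- ksq
    intro q Z Y β c hl hc
    rw [tab_tk M K N NQ e e' hN hNQ q _ hl, tab_tn M K N NQ e e' hN hNQ q _ hl]
    refine ⟨?_, rfl, ?_⟩
    · simp only [kd0]
      rw [if_neg hc]
    · intro q'
      rw [tab_ts M K N NQ e e' hN hNQ q _ hl]
      simp only [sk0]
      rw [dif_pos (Fin.is_lt _)]
      simp
  · -- kb0
    intro q β c hl
    rw [tab_tb M K N NQ e e' hN hNQ q β hl]
    unfold tb0
    constructor
    · intro h r hr
      split_ifs at h with h1 h2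
      cases r with
      | none => exact h1 hr
      | some q' => exact h2 ⟨q', hr⟩
    · intro h
      rw [if_neg (h none), dif_neg]
      rintro ⟨q', hq'⟩
      exact h _ hq'
  · -- kb1
    intro q β c hl
    rw [tab_tb M K N NQ e e' hN hNQ q β hl]
    unfold tb0
    constructor
    · intro h
      split_ifs at h with h1 h2
      · exact h1
      · omega
    · intro h
      rw [if_pos h]
  · -- kb2
    intro q β c q' hl
    rw [tab_tb M K N NQ e e' hN hNQ q β hl]
    unfold tb0
    constructor
    · intro h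
      split_ifs at h with h1 h2
      · omega
      · have h3 : (e' h2.choose).val = (e' q').val := by omega
        have h4 := e'.injective (Fin.ext h3)
        have h5 := h2.choose_spec
        rw [h4] at h5
        exact h5
    · intro h
      have hex : ∃ q', EpR M (c = 0) q β (some q') := ⟨q', h⟩
      rw [if_neg, dif_pos hex]
      · have h5 := epR_unique M h hex.choose_spec
        injection h5 with h6
        rw [← h6]
      · intro hn
        have := epR_unique M hn h
        cases this

end Pool.Agent.Helper57.DC
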